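import Pool.Agent.H55.QR.Targets
import Pool.Agent.H76.PS.PSL

/-! PSL3: the psd lemma with the roles exchanged (helper51). -/

set_option autoImplicit false

namespace Pool.Agent.H51.QR

open Matrix Finset H43.PS Pool.Agent.H55.QR

/-- tables and their values at `b` -/
def spl (Θ : Type) {N q : ℕ} (b : Fin N → Fin q) :
    (Fin N → Fin q → Θ) ≃ (Fin N → Θ) × (∀ i : Fin N, {j : Fin q // j ≠ b i} → Θ) where
  toFun t := (fun i => t i (b i), fun i j => t i j.1)
  invFun p := fun i j => if h : j = b i then p.1 i else p.2 i ⟨j, h⟩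
  left_inv t := by
    funext i j
    by_cases h : j = b i
    · subst h
      simp
    · simp [h]
  right_inv p := by
    refine Prod.ext ?_ ?_
    · funext i
      simp
    · funext i j
      simp [j.2]

theorem av_eval {Θ : Type} [Fintype Θ] {N q : ℕ} (hΘ : 0 < Fintype.card Θ)
    (b : Fin N → Fin q) (F : (Fin N → Θ) → ℝ) :
    av (fun t : Fin N → Fin q → Θ => F (fun i => t i (b i))) = av F := by
  classical
  have : Nonempty Θ := Fintype.card_pos_iff.mp hΘ
  have h1 : ∑ t : Fin N → Fin q → Θ, F (fun i => t i (b i)) =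
      ∑ p : (Fin N → Θ) × (∀ i : Fin N, {j : Fin q // j ≠ b i} → Θ), F p.1 :=
    Equiv.sum_comp (spl Θ b) (fun p => F p.1)
  have h2 := Fintype.card_congr (spl Θ b)
  have h3 : (0 : ℝ) < (Fintype.card (∀ i : Fin N, {j : Fin q // j ≠ b i} → Θ) : ℝ) := by
    exact_mod_cast Fintype.card_pos
  unfold av
  rw [h1, h2, Fintype.card_prod, Fintype.sum_prod_type]
  have h4 : ∀ z : Fin N → Θ, (∑ y : (∀ i : Fin N, {j : Fin q // j ≠ b i} → Θ), F (z, y).1) =
      (Fintype.card (∀ i : Fin N, {j : Fin q // j ≠ b i} → Θ) : ℝ) * F z := by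
    intro z
    have h5 : ∀ y : (∀ i : Fin N, {j : Fin q // j ≠ b i} → Θ), F (z, y).1 = F z := fun _ => rfl
    rw [Finset.sum_congr rfl fun y _ => h5 y, Finset.sum_const, Finset.card_univ, nsmul_eq_mul]
  rw [Finset.sum_congr rfl fun z _ => h4 z, ← Finset.mul_sum, Nat.cast_mul, mul_inv]
  field_simp

theorem av_prod {X Y : Type} [Fintype X] [Fintype Y] (G : X → Y → ℝ) :
    av (fun ab : X × Y => G ab.1 ab.2) = av (fun y => av (fun x => G x y)) := by
  unfold av
  rw [Fintype.card_prod, Nat.cast_mul, mul_inv, Fintype.sum_prod_type, Finset.sum_comm,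
    ← Finset.mul_sum]
  ring

theorem av_share {N q : ℕ} (A : Finset (Fin N → Fin q)) [DecidablePred (fun b => b ∈ A)] (c : ℝ) :
    av (fun b : Fin N → Fin q => if b ∈ A then c else 0) = (A.card : ℝ) / (q : ℝ) ^ N * c := by
  unfold av
  have h3 : Finset.univ.filter (fun x => x ∈ A) = A := by ext x; simp
  rw [← Finset.sum_filter, h3, Finset.sum_const, nsmul_eq_mul, Fintype.card_fun, Fintype.card_fin,
    Fintype.card_fin]
  push_cast
  ring

theorem pf_PSL3 (hSDP : T_SDP) (hNRM : T_NRM) (hTRP : T_TRP) : S_PSL3 := by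
  classical
  intro Θ _ _ p σ hp1 hp2 hσ hΘ N q h hq ι _ _ A L S D v M m δ hL hS hDM hPD hD1 hDv hv0 hvm hm
    hδ hvt
  have hΘn : Nonempty Θ := Fintype.card_pos_iff.mp hΘ
  have hG : 0 < Fintype.card (Fin N → Θ) := Fintype.card_pos
  have hT : 0 < Fintype.card (Fin N → Fin q → Θ) := Fintype.card_pos
  have hM : 1 ≤ M := by
    rw [← hD1, ← H76.PS.av_const hG M]
    exact H76.PS.av_mono _ _ fun z => (abs_le.mp (hDM z)).2
  obtain ⟨μ, hμd⟩ : ∃ μ : ℝ, (A.card : ℝ) / (q : ℝ) ^ N = μ := ⟨_, rfl⟩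
  rw [hμd]
  have hμ : 0 ≤ μ := by rw [← hμd]; positivity
  have hσ0 : (0 : ℝ) ≤ σ := by linarith
  have hXW := fun W W' hW hWW => H76.PS.XX_mono (Fintype.card Θ) q p σ (Fintype.card ι) (2 * m)
    W W' N h (by positivity) (by positivity) hp1 hσ0 (by positivity) (by positivity) hW hWW
  have hWn : 0 ≤ (Fintype.card ι : ℝ) ^ p := by positivity
  rcases A.eq_empty_or_nonempty with hA | hA
  · have h0 : μ = 0 := by rw [← hμd, hA]; simp
    have h1 := (hXW _ _ hWn le_rfl).1
    rw [h0, mul_zero]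
    have h2 : 0 ≤ 16 * M ^ 2 * m := by positivity
    exact mul_nonneg h2 h1
  -- normalisation
  obtain ⟨P', L', hP', hL', hPS, htP, htS⟩ := hNRM ι (Fin N → Fin q → Θ) {b // b ∈ A}
    S (fun b => L b.1) m hm hS (fun b => hL b.1 b.2) (by
      intro t b
      rw [Matrix.trace_mul_comm, ← hvt b.1 b.2 t]
      have := hvm (fun i => t i (b.1 i))
      linarith)
  let L2 : (Fin N → Fin q) → Matrix ι ι ℝ := fun b => if hb : b ∈ A then L' ⟨b, hb⟩ else 0
  have hL2 : ∀ b, (L2 b).PosSemidef := by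
    intro b
    by_cases hb : b ∈ A
    · simp only [L2, dif_pos hb]; exact hL' _
    · simp only [L2, dif_neg hb]; exact PosSemidef.zero
  have htL2 : ∀ b, (L2 b).trace ≤ 2 * m := by
    intro b
    by_cases hb : b ∈ A
    · simp only [L2, dif_pos hb]; exact htS _
    · simp only [L2, dif_neg hb, Matrix.trace_zero]; positivity
  have htr : ∀ t b, (P' t * L2 b).trace =
      if b ∈ A then v (fun i => t i (b i)) - δ else 0 := by
    intro t b
    by_cases hb : b ∈ A
    · simp only [L2, dif_pos hb, if_pos hb]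
      rw [hPS t ⟨b, hb⟩, Matrix.trace_mul_comm, hvt b hb t]
    · simp only [L2, dif_neg hb, if_neg hb, Matrix.mul_zero, Matrix.trace_zero]
  have hnn : ∀ t b, 0 ≤ (P' t * L2 b).trace := fun t b =>
    H76.PS.trace_mul_nn _ _ (hP' t) (hL2 b)
  have hδm : δ ≤ m := by
    obtain ⟨b, hb⟩ := hA
    have θ₀ : Θ := Classical.choice hΘn
    have h1 := hnn (fun _ _ => θ₀) b
    rw [htr, if_pos hb] at h1
    have h2 := hvm (fun i : Fin N => (fun (_ : Fin N) (_ : Fin q) => θ₀) i (b i))
    linarith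
  -- the weights
  have htp : av (fun a => tp p (P' a)) ≤ (Fintype.card ι : ℝ) ^ p := by
    rw [← H76.PS.av_const hT ((Fintype.card ι : ℝ) ^ p)]
    refine H76.PS.av_mono _ _ fun a => ?_
    refine ((hTRP ι p (P' a) hp1 (hP' a)).2).trans ?_
    exact Real.rpow_le_rpow (hP' a).trace_nonneg (htP a) (by linarith)
  have htp0 : 0 ≤ av (fun a => tp p (P' a)) :=
    H76.PS.av_nn _ fun a => H76.PS.tp_nn p _ (hP' a)
  obtain ⟨hX0, hX1⟩ := hXW _ _ htp0 htp
  set X0 : ℝ := XX (Fintype.card Θ) q p σ (Fintype.card ι) (2 * m) (av (fun a => tp p (P' a))) N h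
    with hX0def
  set X : ℝ := XX (Fintype.card Θ) q p σ (Fintype.card ι) (2 * m) ((Fintype.card ι : ℝ) ^ p) N h
    with hXdef
  have hXn : 0 ≤ X := hX0.trans hX1
  set t : ℝ := δ / (2 * M * m) with ht
  have htpos : 0 < t := by rw [ht]; positivity
  have hY : 0 ≤ av (fun ab : (Fin N → Fin q → Θ) × (Fin N → Fin q) =>
      (P' ab.1 * L2 ab.2).trace) := H76.PS.av_nn _ fun ab => hnn _ _
  have key : - (M * (t * av (fun ab : (Fin N → Fin q → Θ) × (Fin N → Fin q) =>
        (P' ab.1 * L2 ab.2).trace) + X / t + X)) ≤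
      av (fun ab : (Fin N → Fin q → Θ) × (Fin N → Fin q) =>
        D (fun i => ab.1 i (ab.2 i)) * (P' ab.1 * L2 ab.2).trace) := by
    have h1 := hSDP Θ p σ hp1 hp2 hσ hΘ N q h hq ι P' L2 D M (2 * m) hP' hL2 htL2 hDM hPD
    refine le_trans ?_ h1
    apply neg_le_neg
    apply mul_le_mul_of_nonneg_left _ (by linarith)
    have h2 := H76.PS.two_sqrt_le _ X0 t hY hX0 htpos
    have h3 : X0 / t ≤ X / t := div_le_div_of_nonneg_right hX1 htpos.le
    linarith
  have hR : av (fun ab : (Fin N → Fin q → Θ) × (Fin N → Fin q) =>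
        D (fun i => ab.1 i (ab.2 i)) * (P' ab.1 * L2 ab.2).trace) = μ * (-δ) := by
    rw [av_prod (fun (a : Fin N → Fin q → Θ) (b : Fin N → Fin q) =>
      D (fun i => a i (b i)) * (P' a * L2 b).trace), ← hμd, ← av_share A (-δ)]
    congr 1
    funext b
    by_cases hb : b ∈ A
    · rw [if_pos hb]
      have h1 : (fun a : Fin N → Fin q → Θ => D (fun i => a i (b i)) * (P' a * L2 b).trace) =
          fun a : Fin N → Fin q → Θ => (fun z : Fin N → Θ => D z * v z - δ * D z)
            (fun i => a i (b i)) := by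
        funext a
        rw [htr, if_pos hb]
        ring
      rw [h1, av_eval hΘ b (fun z : Fin N → Θ => D z * v z - δ * D z),
        H76.PS.av_sub, H76.PS.av_smul, hD1, hDv]
      ring
    · rw [if_neg hb]
      have h1 : (fun a : Fin N → Fin q → Θ => D (fun i => a i (b i)) * (P' a * L2 b).trace) =
          fun _ => 0 := by
        funext a
        rw [htr, if_neg hb, mul_zero]
      rw [h1, H76.PS.av_const hT]
  have hYY : av (fun ab : (Fin N → Fin q → Θ) × (Fin N → Fin q) =>
        (P' ab.1 * L2 ab.2).trace) ≤ m * μ := by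
    rw [av_prod (fun (a : Fin N → Fin q → Θ) (b : Fin N → Fin q) => (P' a * L2 b).trace),
      mul_comm m μ, ← hμd, ← av_share A m]
    apply H76.PS.av_mono
    intro b
    by_cases hb : b ∈ A
    · rw [if_pos hb, ← H76.PS.av_const hT m]
      apply H76.PS.av_mono
      intro a
      rw [htr, if_pos hb]
      have := hvm (fun i => a i (b i))
      linarith
    · rw [if_neg hb, ← H76.PS.av_const hT 0]
      apply H76.PS.av_mono
      intro a
      rw [htr, if_neg hb]
  rw [hR] at key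
  refine H76.PS.final_ineq δ μ M m X _ hδ hm hM hδm hXn hYY ?_
  rw [← ht]
  linarith

end Pool.Agent.H51.QR
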